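import Mathlib
import Pool.Agent.Lib.helper21.Mach

set_option autoImplicit false

/-! A finite counter machine that outputs the diagonal function in register 2. -/

namespace Pool.Agent.H.MP_8720f8_lc

open Function Pool.Agent.Lib.helper21.While Pool.Agent.Lib.helper21.Mach
open Nat.Partrec (Code)

theorem out_prog : ∃ P : Prog, ∀ n v, v ∈ Code.eval (Denumerable.ofNat _ n) n →
    ∃ t, Run P (init n) t ∧ t 2 = v := by
  let ev : ℕ → ℕ → Option ℕ := fun n k => Code.evaln k (Denumerable.ofNat _ n) n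
  have hev : Primrec₂ ev := Code.primrec_evaln.comp
    ((Primrec.snd.pair ((Primrec.ofNat _).comp Primrec.fst)).pair Primrec.fst)
  let g : ℕ → ℕ → ℕ := fun n k => Encodable.encode (ev n k).isNone
  have hg : Primrec₂ g := (Primrec.encode.comp (Primrec.not.comp
    (Primrec.option_isSome.comp hev))).of_eq (fun x => by simp [g])
  let o : ℕ → ℕ → ℕ := fun n k => (ev n (k - 1)).getD 0
  have ho : Primrec₂ o := Primrec.option_getD.comp
    (hev.comp Primrec.fst (Primrec.nat_sub.comp Primrec.snd (Primrec.const 1))) (Primrec.const 0)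
  obtain ⟨Q, hQ⟩ := prim_prog (Nat.Primrec'.prim_iff₂.2 hg) ![0, 1] 2 3 (by decide) (by decide)
    (by decide)
  obtain ⟨O, hO⟩ := prim_prog (Nat.Primrec'.prim_iff₂.2 ho) ![0, 1] 2 3 (by decide) (by decide)
    (by decide)
  let B : Prog := .seq (clr 2) (.seq Q (.inc 1))
  let S : ℕ → ℕ → ℕ → St := fun n k v => update (update (init n) 1 k) 2 v
  have hB : ∀ n k v, Run B (S n k v) (S n (k + 1) (g n k)) := fun n k v =>
    (Run.seq (run_clr _ _) (Run.seq (hQ _ (fun r hr => by
      simp only [S, init, update_apply]; split_ifs <;> omega)) (Run.inc _ _))).of_eq (fun x => by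
        have e : (List.Vector.ofFn fun i => update (S n k v) 2 0 (![0, 1] i)).tail.head = k := by
          simp [S]
        have e' : (List.Vector.ofFn fun i => update (S n k v) 2 0 (![0, 1] i)).head = n := by
          simp [S, init]
        rw [e, e']
        simp only [S, init, update_apply]
        split_ifs <;> omega)
  have e0 : ∀ n x, update (init n) 2 (init n 2 + 1) x = S n 0 1 x := by
    intro n x
    have : init n 2 = 0 := rfl
    rw [this]
    simp only [S, init, update_apply]; split_ifs <;> omega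
  refine ⟨.seq (.inc 2) (.seq (.loop 2 B) O), fun n v hv => ?_⟩
  classical
  obtain ⟨k, hk⟩ := Code.evaln_complete.1 hv
  have h : ∃ k, g n k = 0 := ⟨k, by simp only [g, ev]; rw [show Code.evaln k _ n = some v from hk]; rfl⟩
  have h1 := Run.iter 2 B (Nat.find h + 1)
    (fun k => S n k (Nat.casesOn k 1 (g n))) (by simpa [S] using Nat.find_spec h) (by
      intro k hk
      refine ⟨?_, hB _ _ _⟩
      cases k with
      | zero => simp [S]
      | succ k => simpa [S] using Nat.find_min h (by omega : k < Nat.find h))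
  refine ⟨_, Run.seq ((Run.inc 2 _).of_eq (e0 n)) (Run.seq h1 (hO _ (fun r hr => by
      simp only [S, init, update_apply]; split_ifs <;> omega))), ?_⟩
  have h2 := Nat.find_spec h
  generalize Nat.find h = j at h2
  have e : (List.Vector.ofFn fun i => S n (j + 1) (g n j) (![0, 1] i)).tail.head = j + 1 := by
    simp [S]
  have e' : (List.Vector.ofFn fun i => S n (j + 1) (g n j) (![0, 1] i)).head = n := by
    simp [S, init]
  simp only [update_self]
  rw [e, e']
  cases e2 : ev n j with
  | none => simp only [g, e2] at h2; exact absurd h2 (by decide)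
  | some x =>
    have : x = v := Part.mem_unique (Code.evaln_sound e2) hv
    simp [S, o, e2, h2, this]

inductive Steps {C : Type} (f : C → Option C) : ℕ → C → C → Prop
  | zero (c : C) : Steps f 0 c c
  | succ {j : ℕ} {c c' d : C} : f c = some c' → Steps f j c' d → Steps f (j + 1) c d

theorem Steps.next {C : Type} {f : C → Option C} {j : ℕ} {c c' d : C} (h : Steps f j c d)
    (e : f c = some c') (hd : f d = none) : ∃ i, j = i + 1 ∧ Steps f i c' d := by
  cases h with
  | zero => rw [hd] at e; cases e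
  | succ h h' => rw [h] at e; cases e; exact ⟨_, rfl, h'⟩

theorem steps_of_run (P : Prog) {p : Prog} {s t : St} (h : Run p s t) :
    ∀ k d, (∃ j, Steps ((M0 P).step 0) j (some k, t) d) →
      ∃ j, Steps ((M0 P).step 0) j (some (p :: k), s) d := by
  induction h with
  | inc r s => exact fun k d ⟨_, h⟩ => ⟨_, .succ (st_inc ..) h⟩
  | dec r s => exact fun k d ⟨_, h⟩ => ⟨_, .succ (st_dec ..) h⟩
  | seq _ _ ih1 ih2 =>
    exact fun k d h => let ⟨_, h⟩ := ih1 _ _ (ih2 _ _ h); ⟨_, .succ (st_seq ..) h⟩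
  | stop p h0 => exact fun k d ⟨_, h⟩ => ⟨_, .succ (st_stop _ _ _ _ _ _ h0) h⟩
  | go h0 _ _ ih1 ih2 =>
    exact fun k d h => let ⟨_, h⟩ := ih1 _ _ (ih2 _ _ h); ⟨_, .succ (st_go _ _ _ _ _ _ h0) h⟩

theorem exists_out : ∃ (Q : Type) (_ : Finite Q) (M : CM Q) (q0 qe : Q),
    (∀ b, M.nxt qe b = none) ∧ ∀ n v, v ∈ Code.eval (Denumerable.ofNat _ n) n →
      ∃ t T, Steps (M.step 0) T (q0, init n) (qe, t) ∧ t 2 = v := by
  obtain ⟨P, hP⟩ := out_prog
  let S : Set (Option (List Prog)) := {x | x ∈ none :: some [] :: (cl P []).map some}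
  have h0 : (M0 P).start ∈ S := List.mem_cons_self
  have h1 : some [P] ∈ S := by
    simp only [S, List.mem_cons, List.mem_map, Set.mem_ofPred_eq]
    exact Or.inr (Or.inr ⟨_, self_mem _ _, rfl⟩)
  have h2 : some [] ∈ S := by simp [S]
  have hS : ∀ q ∈ S, ∀ b y, (M0 P).nxt q b = some y → y ∈ S := by
    intro q hq b y h
    simp only [S, List.mem_cons, List.mem_map, Set.mem_ofPred_eq] at hq ⊢
    rcases hq with rfl | rfl | ⟨x, hx, rfl⟩
    · cases b
      · exact Or.inr (Or.inr ⟨_, self_mem _ _, Option.some.inj h⟩)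
      · exact Or.inl (Option.some.inj h).symm
    · cases h
    · obtain ⟨z, rfl, h' | rfl⟩ := closed P P _ x hx b y h
      · exact Or.inr (Or.inr ⟨z, h', rfl⟩)
      · exact Or.inr (Or.inl rfl)
  have hst : ∀ c : S × St, (((M0 P).res S h0).step 0 c).map (Prod.map Subtype.val id) =
      (M0 P).step 0 (c.1.1, c.2) := by
    intro c
    have e : ((M0 P).res S h0).tst 0 c = (M0 P).tst 0 (c.1.1, c.2) := rfl
    simp only [CM.step, e]
    cases h2 : (M0 P).nxt c.1.1 ((M0 P).tst 0 (c.1.1, c.2)) with
    | none => simp [CM.res, h2]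
    | some y => simp [CM.res, h2, hS _ c.1.2 _ _ h2]
  have key : ∀ j c d, Steps ((M0 P).step 0) j c d → ∀ c' d' : S × St, c = (c'.1.1, c'.2) →
      d = (d'.1.1, d'.2) → Steps (((M0 P).res S h0).step 0) j c' d' := by
    intro j c d h
    induction h with
    | zero c =>
      rintro ⟨a, b⟩ ⟨a', b'⟩ rfl e
      obtain ⟨e1, e2⟩ := Prod.mk.inj e
      obtain rfl := Subtype.ext e1
      subst e2
      exact .zero _
    | succ e _ ih =>
      rintro c' d' rfl rfl
      rw [← hst, Option.map_eq_some_iff] at e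
      obtain ⟨x, e, rfl⟩ := e
      exact .succ e (ih x d' rfl rfl)
  refine ⟨S, (List.finite_toSet _).to_subtype, (M0 P).res S h0, ⟨_, h1⟩, ⟨_, h2⟩,
    fun b => rfl, fun n v hv => ?_⟩
  obtain ⟨t, ht, e⟩ := hP n v hv
  obtain ⟨j, hj⟩ := steps_of_run P ht [] _ ⟨_, .zero _⟩
  exact ⟨t, j, key _ _ _ hj _ _ rfl rfl, e⟩

theorem insep (c : ℕ → Bool) (hc : Computable c)
    (h0 : ∀ n, 0 ∈ Code.eval (Denumerable.ofNat _ n) n → c n = true)
    (h1 : ∀ n, 1 ∈ Code.eval (Denumerable.ofNat _ n) n → c n = false) : False := by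
  have : Computable fun n => cond (c n) 1 0 :=
    Computable.cond hc (Computable.const 1) (Computable.const 0)
  obtain ⟨e, he⟩ := Code.exists_code.1 (Partrec.nat_iff.1 this.partrec)
  have h2 := h0 (Encodable.encode e)
  have h3 := h1 (Encodable.encode e)
  rw [Denumerable.ofNat_encode, he] at h2 h3
  cases h : c (Encodable.encode e) <;> simp [h] at h2 h3

end Pool.Agent.H.MP_8720f8_lc
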