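import Mathlib
import Pool.Agent.H.MP_8720f8_lc.A

set_option autoImplicit false

/-! A rewriting system simulating a counter machine with a clock letter. -/

namespace Pool.Agent.H.MP_8720f8_lc

open Function Pool.Agent.Lib.helper21.While Pool.Agent.Lib.helper21.Mach
open Nat.Partrec (Code)

def Der {Γ : Type} (R : List Γ → List Γ → Prop) (k u : List Γ) : Prop :=
  ∀ P : List Γ → Prop, (∀ p z, P (p ++ k ++ z)) →
    (∀ l r, R l r → ∀ p z, P (p ++ r ++ z) → P (p ++ l ++ z)) → P u

def Cls {Γ : Type} (R : List Γ → List Γ → Prop) (k u : List Γ) : Prop :=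
  ∃ (C : Set (List Γ)) (N : ℕ), u ∈ C ∧ (∀ w ∈ C, w.length ≤ N) ∧ (∀ p z, p ++ k ++ z ∉ C) ∧
    ∀ l r, R l r → ∀ p z, p ++ l ++ z ∈ C ↔ p ++ r ++ z ∈ C

def good (l : List Bool) : Prop := ∃ n, l = List.replicate n false ++ [true]

@[simp] theorem good_nil : ¬ good [] := by rintro ⟨n, h⟩; simp at h
@[simp] theorem good_false (l : List Bool) : good (false :: l) ↔ good l := by
  constructor
  · rintro ⟨_ | n, h⟩
    · simp at h
    · exact ⟨n, by simpa [List.replicate_succ] using h⟩
  · rintro ⟨n, rfl⟩; exact ⟨n + 1, rfl⟩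
@[simp] theorem good_true (l : List Bool) : good (true :: l) ↔ l = [] := by
  constructor
  · rintro ⟨_ | n, h⟩
    · simpa using h
    · simp [List.replicate_succ] at h
  · rintro rfl; exact ⟨0, rfl⟩
theorem good.len {l : List Bool} (h : good l) : l.length = l.count false + 1 := by
  obtain ⟨n, rfl⟩ := h; simp [List.count_replicate]

section
variable {Q : Type} {K : ℕ}

abbrev Lt (Q : Type) (K : ℕ) := Option (Q ⊕ (Fin K × Bool))
def st (q : Q) : Lt Q K := some (.inl q)
def ct (x : Fin K × Bool) : Lt Q K := some (.inr x)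

theorem ct_inj : Injective (ct : _ → Lt Q K) := fun _ _ h => by simpa [ct] using h

def fl (r : ℕ) : List (Fin K × Bool) → List Bool
  | [] => []
  | x :: t => if x.1.val = r then x.2 :: fl r t else fl r t

theorem fl_append (r : ℕ) (a b : List (Fin K × Bool)) : fl r (a ++ b) = fl r a ++ fl r b := by
  induction a with
  | nil => rfl
  | cons x a ih => simp only [List.cons_append, fl, ih]; split_ifs <;> rfl

def dec (t : List (Fin K × Bool)) : St := fun r => (fl r t).count false
def Val (t : List (Fin K × Bool)) : Prop := ∀ r : Fin K, good (fl r t)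

theorem len_eq (t : List (Fin K × Bool)) : t.length = ∑ r : Fin K, (fl r t).length := by
  induction t with
  | nil => simp [fl]
  | cons x t ih =>
    have : ∀ r : Fin K, (fl r (x :: t)).length = (fl r t).length + if x.1 = r then 1 else 0 := by
      intro r; simp only [fl, Fin.val_inj]; split_ifs <;> simp
    simp [this, Finset.sum_add_distrib, ← ih]

def Wd (s : ℕ) (q : Q) (t : List (Fin K × Bool)) : List (Lt Q K) :=
  List.replicate s none ++ st q :: t.map ct

theorem parse1 {s : ℕ} {q q0 : Q} {t : List (Fin K × Bool)} {p z : List (Lt Q K)}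
    (h : Wd s q t = p ++ st q0 :: z) : p = List.replicate s none ∧ q = q0 ∧ z = t.map ct := by
  induction s generalizing p with
  | zero =>
    cases p with
    | nil => simpa [Wd, st, eq_comm] using h
    | cons a p =>
      have : st q0 ∈ t.map (ct : _ → Lt Q K) := by
        rw [show t.map ct = p ++ st q0 :: z from (List.cons.inj h).2]; simp
      simp [st, ct] at this
  | succ s ih =>
    cases p with
    | nil => simp [Wd, st, List.replicate_succ] at h
    | cons a p =>
      obtain ⟨h1, h2⟩ := List.cons.inj h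
      obtain ⟨rfl, h3⟩ := ih h2
      exact ⟨by rw [← h1]; rfl, h3⟩

theorem parse2 {s : ℕ} {q : Q} {x : Fin K × Bool} {t : List (Fin K × Bool)} {p z : List (Lt Q K)}
    (h : Wd s q t = p ++ ct x :: z) :
    ∃ a b, t = a ++ x :: b ∧ p = Wd s q a ∧ z = b.map ct := by
  induction s generalizing p with
  | zero =>
    cases p with
    | nil => simp [Wd, st, ct] at h
    | cons a p =>
      obtain ⟨h1, h2⟩ := List.cons.inj h
      obtain ⟨a, b, rfl, rfl, h3⟩ := List.map_eq_append_iff.1 h2
      obtain ⟨y, b, rfl, h4, rfl⟩ := List.map_eq_cons_iff.1 h3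
      obtain rfl := ct_inj h4
      exact ⟨a, b, rfl, by rw [← h1]; rfl, rfl⟩
  | succ s ih =>
    cases p with
    | nil => simp [Wd, ct, List.replicate_succ] at h
    | cons a p =>
      obtain ⟨h1, h2⟩ := List.cons.inj h
      obtain ⟨a, b, rfl, rfl, rfl⟩ := ih h2
      exact ⟨a, b, rfl, by rw [← h1]; rfl, rfl⟩

variable (M : CM Q) (ρ : Q → Fin K)

def mm (q : Q) (b : Bool) : List (Fin K × Bool) :=
  (if M.eff q b = some true then [(ρ q, false)] else []) ++
    if M.eff q b = some false then [] else [(ρ q, b)]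

inductive Rule : List (Lt Q K) → List (Lt Q K) → Prop
  | run (q : Q) (b : Bool) (q' : Q) : M.nxt q b = some q' →
      Rule [st q, ct (ρ q, b)] (none :: st q' :: (mm M ρ q b).map ct)
  | com (x y : Fin K × Bool) : x.1 ≠ y.1 → Rule [ct x, ct y] [ct y, ct x]

theorem val_mm (q : Q) (b : Bool) (t : List (Fin K × Bool)) :
    Val ((ρ q, b) :: t) ↔ Val (mm M ρ q b ++ t) := by
  have := M.nodec q
  refine forall_congr' fun r => ?_
  by_cases hr : (ρ q).val = r <;> rcases he : M.eff q b with _ | _ | _ <;> cases b <;>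
    simp_all [mm, fl]

theorem tst_eq (hρ : ∀ q, (ρ q).val = M.reg q) (q : Q) (b : Bool) (t : List (Fin K × Bool))
    (h : Val ((ρ q, b) :: t)) : M.tst 0 (q, dec ((ρ q, b) :: t)) = b := by
  have := h (ρ q)
  cases b <;> simp_all [CM.tst, CM.thr, dec, fl]

theorem step_mm (hρ : ∀ q, (ρ q).val = M.reg q) {q q' : Q} {b : Bool} (e : M.nxt q b = some q')
    (t : List (Fin K × Bool)) (h : Val ((ρ q, b) :: t)) :
    M.step 0 (q, dec ((ρ q, b) :: t)) = some (q', dec (mm M ρ q b ++ t)) := by
  simp only [CM.step, tst_eq M ρ hρ q b t h, e, Option.map_some, Option.some.injEq,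
    Prod.mk.injEq, true_and]
  have := M.nodec q
  funext r
  by_cases hr : r = M.reg q
  · subst hr
    rcases he : M.eff q b with _ | _ | _ <;> cases b <;> simp_all [mm, fl, app, dec]
  · have hr' : ¬ M.reg q = r := fun e => hr e.symm
    rcases he : M.eff q b with _ | _ | _ <;> simp [mm, fl, app, dec, hr, hr', hρ, he]

theorem front (P : List (Lt Q K) → Prop)
    (hP : ∀ l r, Rule M ρ l r → ∀ p z, P (p ++ r ++ z) → P (p ++ l ++ z)) (r : Fin K)
    (t : List (Fin K × Bool)) (h : fl r t ≠ []) : ∃ b t', (∀ i, fl i t = fl i ((r, b) :: t')) ∧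
      ∀ p, P (p ++ ((r, b) :: t').map ct) → P (p ++ t.map ct) := by
  induction t with
  | nil => exact absurd rfl h
  | cons x t ih =>
    by_cases hx : x.1 = r
    · subst hx; exact ⟨x.2, t, fun _ => rfl, fun _ h => h⟩
    · obtain ⟨b, t', h1, h2⟩ := ih (by simpa [fl, Fin.val_inj, hx] using h)
      refine ⟨b, x :: t', fun i => ?_, fun p hp => ?_⟩
      · have := h1 i
        have h3 : x.1.val ≠ r.val := fun e => hx (Fin.ext e)
        simp only [fl] at this ⊢
        rw [this]
        split_ifs <;> first | rfl | omega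
      · have := hP _ _ (.com x (r, b) hx) p (t'.map ct) (by simpa using hp)
        have h5 := h2 (p ++ [ct x]) (by simpa using this)
        simpa using h5

theorem der (hρ : ∀ q, (ρ q).val = M.reg q) (qe : Q) (o : Fin K) (P : List (Lt Q K) → Prop)
    (h0 : ∀ p z, P (p ++ [st qe, ct (o, true)] ++ z))
    (hP : ∀ l r, Rule M ρ l r → ∀ p z, P (p ++ r ++ z) → P (p ++ l ++ z))
    {j : ℕ} {c d : Q × St} (h : Steps (M.step 0) j c d) (h1 : d.1 = qe) (h2 : d.2 o = 0) :
    ∀ s t, Val t → dec t = c.2 → P (Wd s c.1 t) := by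
  induction h with
  | zero c =>
    intro s t hv hd
    obtain ⟨b, t', e, hp⟩ := front M ρ P hP o t (fun e => by simpa [e] using hv o)
    have h3 : dec t o = 0 := by rw [hd, h2]
    cases b
    · simp [dec, e, fl] at h3
    · have h5 := hp (List.replicate s none ++ [st c.1])
        (by simpa [h1] using h0 (List.replicate s none) (t'.map ct))
      simpa [Wd] using h5
  | @succ j c c' d e _ ih =>
    intro s t hv hd
    obtain ⟨q, σ⟩ := c
    obtain ⟨b, t', e1, hp⟩ := front M ρ P hP (ρ q) t (fun e => by simpa [e] using hv (ρ q))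
    have hv' : Val ((ρ q, b) :: t') := fun r => e1 r ▸ hv r
    have hd' : σ = dec ((ρ q, b) :: t') := by
      rw [← show dec t = σ from hd]; funext r; simp only [dec, e1]
    subst hd'
    have e2 := e
    rw [CM.step, tst_eq M ρ hρ q b t' hv', Option.map_eq_some_iff] at e2
    obtain ⟨q', e2, -⟩ := e2
    rw [step_mm M ρ hρ e2 t' hv'] at e
    cases e
    have := ih h1 h2 (s + 1) _ ((val_mm M ρ q b t').1 hv') rfl
    have h4 := hP _ _ (.run q b q' e2) (List.replicate s none) (t'.map ct)
      (by simpa [Wd, List.replicate_succ'] using this)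
    have h5 := hp (List.replicate s none ++ [st q]) (by simpa using h4)
    simpa [Wd] using h5

theorem Steps.bd {j : ℕ} {c d : Q × St} (h : Steps (M.step 0) j c d) (r : ℕ) :
    c.2 r ≤ d.2 r + j := by
  induction h with
  | zero => exact le_rfl
  | @succ j c c' d e _ ih =>
    rw [CM.step, Option.map_eq_some_iff] at e
    obtain ⟨q, -, rfl⟩ := e
    simp only at ih
    generalize M.eff c.1 _ = x at ih
    rcases x with _ | _ | _ <;> simp only [app, update_apply] at ih <;>
      (try split_ifs at ih) <;> subst_vars <;> omega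

theorem cls (hρ : ∀ q, (ρ q).val = M.reg q) (qe : Q) (hq : ∀ b, M.nxt qe b = none) (o : Fin K)
    {T : ℕ} {q0 : Q} {t0 : List (Fin K × Bool)} {τ : St} (hv : Val t0)
    (h : Steps (M.step 0) T (q0, dec t0) (qe, τ)) (h2 : τ o ≠ 0) :
    Cls (Rule M ρ) [st qe, ct (o, true)] (Wd 0 q0 t0) := by
  have he : ∀ σ, M.step 0 (qe, σ) = none := fun σ => by simp [CM.step, hq]
  refine ⟨{w | ∃ s j q t, w = Wd s q t ∧ Val t ∧ s + j = T ∧
    Steps (M.step 0) j (q, dec t) (qe, τ)}, T + 1 + ∑ r : Fin K, (τ r + T + 1),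
    ⟨0, T, q0, t0, rfl, hv, by simp, h⟩, ?_, ?_, ?_⟩
  · rintro _ ⟨s, j, q, t, rfl, hv1, rfl, h1⟩
    have : t.length ≤ ∑ r : Fin K, (τ r + (s + j) + 1) := by
      rw [len_eq]
      refine Finset.sum_le_sum fun r _ => ?_
      have := h1.bd M r
      rw [(hv1 r).len]
      simp only [dec] at this
      omega
    simp only [Wd, List.length_append, List.length_replicate, List.length_cons, List.length_map]
    omega
  · rintro p z ⟨s, j, q, t, e, hv1, -, h1⟩
    obtain ⟨-, rfl, e3⟩ := parse1 (z := ct (o, true) :: z) (by simpa using e.symm)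
    obtain ⟨y, t, rfl, h4, -⟩ := List.map_eq_cons_iff.1 e3.symm
    obtain rfl := ct_inj h4
    have h5 := hv1 o
    generalize hc : (q, dec ((o, true) :: t)) = c at h1
    clear hv h
    cases h1 with
    | zero => apply h2; rw [← (Prod.mk.inj hc).2]; simp_all [dec, fl]
    | succ e => rw [← hc, he] at e; cases e
  · rintro _ _ (⟨q, b, q', e⟩ | ⟨x, y, e⟩) p z
    · constructor
      · rintro ⟨s, j, q1, t, e1, hv1, rfl, h1⟩
        obtain ⟨rfl, rfl, e3⟩ := parse1 (z := ct (ρ q, b) :: z) (by simpa using e1.symm)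
        obtain ⟨y, t, rfl, h4, rfl⟩ := List.map_eq_cons_iff.1 e3.symm
        obtain rfl := ct_inj h4
        obtain ⟨i, rfl, h6⟩ := h1.next (step_mm M ρ hρ e t hv1) (he _)
        exact ⟨s + 1, i, q', _, by simp [Wd, List.replicate_succ'],
          (val_mm M ρ _ b t).1 hv1, by omega, h6⟩
      · rintro ⟨s, j, q1, t, e1, hv1, rfl, h1⟩
        obtain ⟨e2, rfl, e3⟩ := parse1 (p := p ++ [none]) (z := (mm M ρ q b).map ct ++ z)
          (by simpa using e1.symm)
        obtain ⟨a, t, rfl, h4, rfl⟩ := List.map_eq_append_iff.1 e3.symm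
        obtain rfl := (List.map_injective_iff.2 ct_inj) h4
        cases s with
        | zero => simp at e2
        | succ s =>
          rw [List.replicate_succ'] at e2
          obtain rfl := List.append_cancel_right e2
          have hv' := (val_mm M ρ _ b t).2 hv1
          exact ⟨s, j + 1, q, (ρ q, b) :: t, by simp [Wd], hv', by omega,
            .succ (step_mm M ρ hρ e t hv') h1⟩
    · have key : ∀ x y : Fin K × Bool, x.1 ≠ y.1 → (∃ s j q t, p ++ [ct x, ct y] ++ z = Wd s q t ∧
          Val t ∧ s + j = T ∧ Steps (M.step 0) j (q, dec t) (qe, τ)) →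
          ∃ s j q t, p ++ [ct y, ct x] ++ z = Wd s q t ∧
          Val t ∧ s + j = T ∧ Steps (M.step 0) j (q, dec t) (qe, τ) := by
        rintro x y e ⟨s, j, q, t, e1, hv1, rfl, h1⟩
        obtain ⟨a, t, rfl, rfl, e3⟩ := parse2 (z := ct y :: z) (by simpa using e1.symm)
        obtain ⟨y', t, rfl, h4, rfl⟩ := List.map_eq_cons_iff.1 e3.symm
        obtain rfl := ct_inj h4
        have h3 : ∀ i, fl i (a ++ y' :: x :: t) = fl i (a ++ x :: y' :: t) := fun i => by
          have h3 : x.1.val ≠ y'.1.val := fun h => e (Fin.ext h)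
          simp only [fl_append, fl]
          split_ifs <;> first | rfl | omega
        refine ⟨s, j, q, a ++ y' :: x :: t, by simp [Wd], fun r => h3 r ▸ hv1 r, rfl, ?_⟩
        rwa [show dec (a ++ y' :: x :: t) = dec (a ++ x :: y' :: t) from
          funext fun r => by simp only [dec, h3]]
      exact ⟨key x y e, key y x e.symm⟩

end

theorem fl_mk {K : ℕ} (l : List (Fin K)) (r : ℕ) :
    fl r (l.map fun i => (i, true)) = List.replicate (l.countP fun i => i.val = r) true := by
  induction l with
  | nil => rfl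
  | cons x l ih => by_cases h : x.val = r <;> simp [fl, h, ih, List.replicate_succ]

theorem fl_rep {K : ℕ} (x : Fin K) (n r : ℕ) :
    fl r (List.replicate n (x, false)) = List.replicate (if x.val = r then n else 0) false := by
  induction n with
  | zero => simp [fl]
  | succ n ih => by_cases h : x.val = r <;> simp_all [fl, List.replicate_succ]

theorem exists_thue : ∃ (Γ : Type) (_ : Finite Γ) (R : List Γ → List Γ → Prop)
    (k : List Γ) (s a : Γ) (z : List Γ), k ≠ [] ∧
    (∀ l r, R l r → l ≠ [] ∧ r ≠ [] ∧ l.length ≤ 4 ∧ r.length ≤ 4) ∧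
    (∀ n, 0 ∈ Code.eval (Denumerable.ofNat _ n) n → Der R k (s :: List.replicate n a ++ z)) ∧
    (∀ n, 1 ∈ Code.eval (Denumerable.ofNat _ n) n → Cls R k (s :: List.replicate n a ++ z)) := by
  obtain ⟨Q, _, M, q0, qe, hq, h⟩ := exists_out
  obtain ⟨K, hK⟩ := (Set.finite_range M.reg).bddAbove
  let ρ : Q → Fin (K + 3) := fun q => ⟨M.reg q, by have := hK ⟨q, rfl⟩; omega⟩
  let o : Fin (K + 3) := ⟨2, by omega⟩
  let t0 : ℕ → List (Fin (K + 3) × Bool) := fun n =>
    List.replicate n (0, false) ++ (List.finRange _).map fun i => (i, true)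
  have hv : ∀ n, Val (t0 n) := fun n r => by
    have : (List.finRange (K + 3)).countP (fun i => decide (i.val = r.val)) = 1 := by
      simp only [Fin.val_inj]
      exact List.count_finRange r
    simp only [t0, fl_append, fl_mk, fl_rep, this]
    exact ⟨_, rfl⟩
  have hd : ∀ n, dec (t0 n) = init n := fun n => funext fun r => by
    simp only [dec, t0, fl_append, fl_mk, fl_rep, init, update_apply]
    by_cases h : r = 0
    · simp [h, List.count_replicate]
    · simp [h, List.count_replicate, Ne.symm h]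
  have hw : ∀ n, Wd 0 q0 (t0 n) = st q0 :: List.replicate n (ct (0, false)) ++
      ((List.finRange _).map fun i => (i, true)).map ct := fun n => by simp [Wd, t0]
  refine ⟨Lt Q (K + 3), inferInstance, Rule M ρ, [st qe, ct (o, true)], st q0, ct (0, false),
    ((List.finRange _).map fun i => (i, true)).map ct, by simp, ?_, fun n hn => ?_,
    fun n hn => ?_⟩
  · rintro _ _ (⟨q, b, q', e⟩ | ⟨x, y, e⟩)
    · simp only [mm]; split_ifs <;> simp
    · simp
  · obtain ⟨t, T, h1, h2⟩ := h n 0 hn
    intro P h0 hP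
    rw [← hw]
    exact der M ρ (fun _ => rfl) qe o P h0 hP h1 rfl h2 0 _ (hv n) (hd n)
  · obtain ⟨t, T, h1, h2⟩ := h n 1 hn
    rw [← hw]
    exact cls M ρ (fun _ => rfl) qe hq o (hv n) (hd n ▸ h1) (by simp [o, h2])

end Pool.Agent.H.MP_8720f8_lc
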