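import Mathlib
import Pool.Agent.H.MP_8720f8_lc.B

set_option autoImplicit false

/-! Finite linear models of a rewriting system with a finite class. -/

namespace Pool.Agent.H.MP_8720f8_lc

open Function Module

abbrev F := ZMod 31

def act {Γ E : Type} [Monoid E] (n : Γ → E) : List Γ → E
  | [] => 1
  | γ :: w => act n w * n γ

def Mod {Γ : Type} (R : List Γ → List Γ → Prop) (k u : List Γ) {V : Type} [AddCommGroup V]
    [Module F V] (n : Γ → End F V) : Prop :=
  (∀ l r, R l r → act n l = act n r) ∧ act n k = 0 ∧ ∃ x, ∃ φ : V →ₗ[F] F, φ (act n u x) ≠ 0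

variable {Γ : Type} {R : List Γ → List Γ → Prop} {k u : List Γ}

theorem fin_supp {A B : Type} [Finite B] [Zero B] (D : Set A) (hD : D.Finite)
    (S : Set (A → B)) (h : ∀ f ∈ S, ∀ a, a ∉ D → f a = 0) : Finite S := by
  have := hD.to_subtype
  refine Finite.of_injective (fun (f : S) (a : D) => f.1 a) fun f g e => Subtype.ext ?_
  funext a
  by_cases ha : a ∈ D
  · exact congrFun e ⟨a, ha⟩
  · rw [h _ f.2 a ha, h _ g.2 a ha]

theorem model1 [Finite Γ] (h : Cls R k u) : ∃ (V : Type) (_ : AddCommGroup V) (_ : Module F V)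
    (_ : Finite V) (n : Γ → End F V), Mod R k u n := by
  classical
  obtain ⟨C, N, hu, hN, hk, hR⟩ := h
  let V : Submodule F (List Γ → F) :=
    { carrier := {f | (∀ w : List Γ, ¬ w.length ≤ N → f w = 0) ∧ (∀ p z, f (p ++ k ++ z) = 0) ∧
        ∀ l r, R l r → ∀ p z, f (p ++ l ++ z) = f (p ++ r ++ z)}
      add_mem' := fun ⟨a1, a2, a3⟩ ⟨b1, b2, b3⟩ => ⟨fun w h => by simp [a1 w h, b1 w h],
        fun p z => by rw [Pi.add_apply, a2, b2, add_zero],
        fun l r h p z => by rw [Pi.add_apply, Pi.add_apply, a3 l r h, b3 l r h]⟩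
      zero_mem' := ⟨fun _ _ => rfl, fun _ _ => rfl, fun _ _ _ _ _ => rfl⟩
      smul_mem' := fun c f ⟨a1, a2, a3⟩ => ⟨fun w h => by simp [a1 w h],
        fun p z => by rw [Pi.smul_apply, a2, smul_zero],
        fun l r h p z => by rw [Pi.smul_apply, Pi.smul_apply, a3 l r h]⟩ }
  let n : Γ → End F V := fun γ =>
    { toFun := fun f => ⟨fun w => f.1 (γ :: w), fun w h => f.2.1 _ (by simp; omega),
        fun p z => f.2.2.1 (γ :: p) z, fun l r h p z => f.2.2.2 l r h (γ :: p) z⟩
      map_add' := fun _ _ => rfl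
      map_smul' := fun _ _ => rfl }
  have hn : ∀ l (f : V) w, (act n l f).1 w = f.1 (l ++ w) := by
    intro l
    induction l with
    | nil => exact fun _ _ => rfl
    | cons γ l ih => exact fun f w => ih (n γ f) w
  refine ⟨V, inferInstance, inferInstance,
    fin_supp _ (List.finite_length_le Γ N) _ fun f hf => hf.1, n, fun l r h => ?_, ?_,
    ⟨fun w => if w ∈ C then 1 else 0, fun w h => if_neg fun h' => h (hN w h'),
      fun p z => if_neg (hk p z), fun l r h p z => by simp only [hR l r h p z]⟩,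
    (LinearMap.proj []).comp V.subtype, ?_⟩
  · ext f w
    rw [hn, hn]
    exact f.2.2.2 l r h [] w
  · ext f w
    rw [hn]
    exact f.2.2.1 [] w
  · change (act n u _).1 [] ≠ 0
    rw [hn]
    simp only [List.append_nil, hu, if_true]
    decide

/-- transfer along a corner -/
theorem Mod.corner {V U : Type} [AddCommGroup V] [Module F V] [AddCommGroup U] [Module F U]
    {n : Γ → End F V} (h : Mod R k u n) (hR : ∀ l r, R l r → l ≠ [] ∧ r ≠ []) (hk : k ≠ [])
    (i : V →ₗ[F] U) (p : U →ₗ[F] V) (hp : ∀ x, p (i x) = x) (m : Γ → End F U)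
    (hm : ∀ γ x, m γ x = i (n γ (p x))) : Mod R k u m := by
  have h1 : ∀ l x, act m l (i x) = i (act n l x) := by
    intro l
    induction l with
    | nil => exact fun _ => rfl
    | cons γ l ih => intro x; simp only [act, End.mul_apply, hm, hp, ih]
  have h2 : ∀ l, l ≠ [] → ∀ x, act m l x = i (act n l (p x)) := by
    rintro (_ | ⟨γ, l⟩) hl x
    · exact absurd rfl hl
    · simp only [act, End.mul_apply, hm, h1]
  obtain ⟨a, b, x, φ, c⟩ := h
  refine ⟨fun l r e => ?_, ?_, i x, φ.comp p, by simpa [h1, hp] using c⟩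
  · ext x; rw [h2 l (hR l r e).1, h2 r (hR l r e).2, a l r e]
  · ext x; simp [h2 k hk, b]

theorem model2 [Finite Γ] (h : Cls R k u) (hR : ∀ l r, R l r → l ≠ [] ∧ r ≠ []) (hk : k ≠ [])
    (ι : Γ → ℕ) (hι : Injective ι) : ∃ (V : Type) (_ : AddCommGroup V) (_ : Module F V)
    (_ : Finite V) (α β : End F V), Mod R k u fun γ => α * β ^ (ι γ + 1) * α := by
  classical
  obtain ⟨V, _, _, _, n, h⟩ := model1 h
  obtain ⟨N, hN⟩ := (Set.finite_range ι).bddAbove
  let m : ℕ → End F V := extend ι n 0
  have hm : ∀ j, N < j → m j = 0 := fun j hj =>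
    extend_apply' _ _ _ fun ⟨γ, e⟩ => by have := hN ⟨γ, e⟩; omega
  let U : Submodule F (ℕ → V) :=
    { carrier := {f | ∀ j, ¬ j ≤ N + 2 → f j = 0}
      add_mem' := fun a b j h => by simp [a j h, b j h]
      zero_mem' := fun _ _ => rfl
      smul_mem' := fun c f a j h => by simp [a j h] }
  let α : End F U :=
    { toFun := fun f => ⟨fun j => if j = 0 then f.1 1 else m (j - 2) (f.1 0),
        fun j h => (if_neg (by omega)).trans (by rw [hm _ (by omega)]; rfl)⟩
      map_add' := fun _ _ => by ext j; simp; split_ifs <;> rfl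
      map_smul' := fun _ _ => by ext j; simp }
  let β : End F U :=
    { toFun := fun f => ⟨fun j => if j = 0 then 0 else f.1 (j + 1),
        fun j h => (if_neg (by omega)).trans (f.2 _ (by omega))⟩
      map_add' := fun _ _ => by ext j; simp; split_ifs <;> simp
      map_smul' := fun _ _ => by ext j; simp }
  have hβ : ∀ i (f : U) j, ((β ^ (i + 1)) f).1 j = if j = 0 then 0 else f.1 (j + i + 1) := by
    intro i
    induction i with
    | zero => exact fun _ _ => rfl
    | succ i ih =>
      intro f j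
      rw [pow_succ, End.mul_apply, ih]
      rfl
  let i : V →ₗ[F] U :=
    { toFun := fun x => ⟨fun j => if j = 0 then x else 0, fun j h => if_neg (by omega)⟩
      map_add' := fun _ _ => by ext j; simp; split_ifs <;> simp
      map_smul' := fun _ _ => by ext j; simp }
  refine ⟨U, inferInstance, inferInstance,
    fin_supp _ (Set.finite_le_nat (N + 2)) _ fun f hf => hf, α, β,
    h.corner hR hk i ((LinearMap.proj 0).comp U.subtype) (fun _ => rfl) _ fun γ x => ?_⟩
  ext j
  change (if j = 0 then ((β ^ (ι γ + 1)) (α x)).1 1 else m (j - 2) (((β ^ (ι γ + 1)) (α x)).1 0)) =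
    if j = 0 then n γ (x.1 0) else 0
  rw [hβ, hβ]
  have : m (ι γ) = n γ := hι.extend_apply ..
  simp [α, this]

theorem model3 [Finite Γ] (h : Cls R k u) (hR : ∀ l r, R l r → l ≠ [] ∧ r ≠ []) (hk : k ≠ [])
    (ι : Γ → ℕ) (hι : Injective ι) : ∃ (V : Type) (_ : AddCommGroup V) (_ : Module F V)
    (_ : Finite V) (a b c : End F V), a * a = a ∧ b * b = b ∧ c * c = c ∧
      Mod R k u fun γ => ((-3 : F) • (c * a)) * ((6 : F) • (c * b)) ^ (ι γ + 1) *
        ((-3 : F) • (c * a)) := by
  obtain ⟨V, _, _, _, α, β, h⟩ := model2 h hR hk ι hι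
  let e : End F V → End F (V × V) := fun α => (LinearMap.fst F V V).prod (α ∘ₗ .fst F V V)
  let c : End F (V × V) := (LinearMap.snd F V V).prod (.snd F V V)
  have h1 : ∀ x, ((-3 : F) • (c * e ((10 : F) • α))) x = (α x.1, α x.1) := fun x => by
    simp [c, e, smul_smul, show -((3 : F) * 10) = 1 from rfl, ← neg_smul]
  have h2 : ∀ x, ((6 : F) • (c * e ((26 : F) • β))) x = (β x.1, β x.1) := fun x => by
    simp [c, e, smul_smul, show (6 : F) * 26 = 1 from rfl]
  have h3 : ∀ i x, ((((6 : F) • (c * e ((26 : F) • β))) ^ i) x).1 = (β ^ i) x.1 := by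
    intro i
    induction i with
    | zero => exact fun _ => rfl
    | succ i ih => intro x; rw [pow_succ, pow_succ, End.mul_apply, ih, h2]; rfl
  refine ⟨V × V, inferInstance, inferInstance, inferInstance, e ((10 : F) • α), e ((26 : F) • β),
    c, rfl, rfl, rfl, h.corner hR hk (LinearMap.id.prod .id) (.fst F V V) (fun _ => rfl) _
      fun γ x => ?_⟩
  rw [End.mul_apply, End.mul_apply, h1, h3, h1]
  rfl

end Pool.Agent.H.MP_8720f8_lc
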