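import Mathlib
import Pool.Agent.H.MP_8720f8_lc.C

set_option autoImplicit false

/-! The group operations, their soundness in every group and the finite Heisenberg model. -/

namespace Pool.Agent.H.MP_8720f8_lc

open Function Module

section
variable {G H : Type} [Group G] [Group H]

def cm (y c : G) : G := y⁻¹ * (c * y * c⁻¹)
def p3 (c y : G) : G := c * cm y c * c⁻¹ * cm y c ^ 15
def al (a c y : G) : G := p3 c (cm y a)
def ar (a c y : G) : G := cm (p3 c⁻¹ y) a⁻¹
def DD (f : G → G → G → G) (g : ℕ → G) (i : ℕ) (y : G) : G :=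
  f (g 3 ^ 465) (g 5 ^ 186) ((f (g 4 ^ 310) (g 5 ^ 186))^[i + 1]
    (f (g 3 ^ 465) (g 5 ^ 186) (y ^ 900)))
def ph (y g : G) : G := cm (y ^ 900) (g ^ 900)

theorem map_cm (f : G →* H) (y c : G) : f (cm y c) = cm (f y) (f c) := by simp [cm]
theorem map_al (f : G →* H) (a c y : G) : f (al a c y) = al (f a) (f c) (f y) := by
  simp [al, p3, map_cm]
theorem map_ar (f : G →* H) (a c y : G) : f (ar a c y) = ar (f a) (f c) (f y) := by
  simp [ar, p3, map_cm]
theorem map_DD (f : G →* H) {x : G → G → G → G} {x' : H → H → H → H}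
    (h : ∀ a c y, f (x a c y) = x' (f a) (f c) (f y)) (g : ℕ → G) (i : ℕ) (y : G) :
    f (DD x g i y) = DD x' (fun j => f (g j)) i (f y) := by
  have : ∀ a c n y, f ((x a c)^[n] y) = (x' (f a) (f c))^[n] (f y) := fun a c n y =>
    Semiconj.iterate_right (h a c) n y
  simp only [DD, h, this, map_pow]
theorem map_ph (f : G →* H) (y c : G) : f (ph y c) = ph (f y) (f c) := by simp [ph, map_cm]

variable {Γ : Type} (ι : Γ → ℕ) (R : List Γ → List Γ → Prop) (k : List Γ)

def DL (g : ℕ → G) (l : List Γ) (y : G) : G := l.foldl (fun y γ => DD al g (ι γ) y) y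
def DR (g : ℕ → G) (l : List Γ) (y : G) : G := l.foldr (fun γ y => DD ar g (ι γ) y) y

theorem map_DL (f : G →* H) (g : ℕ → G) (l : List Γ) (y : G) :
    f (DL ι g l y) = DL ι (fun j => f (g j)) l (f y) := by
  induction l generalizing y with
  | nil => rfl
  | cons γ l ih => simp only [DL, List.foldl_cons] at ih ⊢; rw [ih, map_DD f (map_al f)]

abbrev Ix := (Γ × Bool × Bool) ⊕ Option {p : List Γ × List Γ // R p.1 p.2}

def Op (g : ℕ → G) : Ix R → G
  | .inl (γ, false, false) => DD al g (ι γ) (g 1)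
  | .inl (γ, false, true) => DD ar g (ι γ) (g 1)
  | .inl (γ, true, false) =>
    g 0 * ((ph (DD al g (ι γ) (g 1)) (g 2))⁻¹ * ph (g 1) (DD ar g (ι γ) (g 2)))
  | .inl (γ, true, true) =>
    g 0 * ((ph (g 1) (DD ar g (ι γ) (g 2)))⁻¹ * ph (DD al g (ι γ) (g 1)) (g 2))
  | .inr none => g 0 * ph (DL ι g k (g 1)) (g 2)
  | .inr (some p) => g 0 * ((ph (DL ι g p.1.2 (g 1)) (g 2))⁻¹ * ph (DL ι g p.1.1 (g 1)) (g 2))

theorem map_Op (f : G →* H) (g : ℕ → G) (o : Ix R) :
    f (Op ι R k g o) = Op ι R k (fun j => f (g j)) o := by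
  rcases o with ⟨γ, _ | _, _ | _⟩ | _ | p <;>
    simp only [Op, map_mul, map_inv, map_ph, map_DL, map_DD f (map_al f), map_DD f (map_ar f)]

def Cl (S : Set G) : Prop := ∀ g : ℕ → G, (∀ j, g j ∈ S) → ∀ o, Op ι R k g o ∈ S

def Tg (g : ℕ → G) (u : List Γ) : G := g 0 * ph (DL ι g u (g 1)) (g 2)

variable {ι R k}

theorem sound {S : Set G} (hS : Cl ι R k S) (g : ℕ → G) (hg : ∀ j, g j ∈ S) {u : List Γ}
    (h : Der R k u) : Tg ι g u ∈ S := by
  let s : G → G → G → ℕ → G := fun a b c j =>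
    match j with
    | 0 => a
    | 1 => b
    | 2 => c
    | j + 3 => g (j + 3)
  have key : ∀ a ∈ S, ∀ b ∈ S, ∀ c ∈ S, ∀ o, Op ι R k (s a b c) o ∈ S := fun a ha b hb c hc =>
    hS _ fun j => match j with
      | 0 => ha
      | 1 => hb
      | 2 => hc
      | j + 3 => hg (j + 3)
  have cn : ∀ a b : G, g 0 * a * (a⁻¹ * b) ∈ S → g 0 * b ∈ S := fun a b h => by
    rwa [mul_assoc, mul_inv_cancel_left] at h
  have hL : ∀ l, ∀ y ∈ S, DL ι g l y ∈ S := by
    intro l
    induction l with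
    | nil => exact fun _ h => h
    | cons γ l ih => exact fun y h => ih _ (key y h y h y h (.inl (γ, false, false)))
  have hR : ∀ l, DR ι g l (g 2) ∈ S := by
    intro l
    induction l with
    | nil => exact hg 2
    | cons γ l ih => exact key _ ih _ ih _ ih (.inl (γ, false, true))
  have app : ∀ p z y, DL ι g (p ++ z) y = DL ι g z (DL ι g p y) := fun p z y =>
    List.foldl_append
  have mv : ∀ z, ∀ y ∈ S, g 0 * ph (DL ι g z y) (g 2) ∈ S ↔ g 0 * ph y (DR ι g z (g 2)) ∈ S := by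
    intro z
    induction z with
    | nil => exact fun _ _ => Iff.rfl
    | cons γ z ih =>
      intro y hy
      refine (ih _ (hL [γ] y hy)).trans ⟨fun h => ?_, fun h => ?_⟩
      · have := key _ h y hy _ (hR z) (.inl (γ, true, false))
        exact cn _ _ this
      · have := key _ h y hy _ (hR z) (.inl (γ, true, true))
        exact cn _ _ this
  refine h (fun w => Tg ι g w ∈ S) (fun p z => ?_) fun l r e p z h => ?_
  · simp only [Tg, app]
    rw [mv z _ (hL _ _ (hL _ _ (hg 1)))]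
    exact key _ (hg 0) _ (hL p _ (hg 1)) _ (hR z) (.inr none)
  · simp only [Tg, app] at h ⊢
    rw [mv z _ (hL _ _ (hL _ _ (hg 1)))] at h ⊢
    have := key _ h _ (hL p _ (hg 1)) _ (hR z) (.inr (some ⟨(l, r), e⟩))
    exact cn _ _ this

end

end Pool.Agent.H.MP_8720f8_lc
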