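import Mathlib
import Pool.Agent.H.MP_8720f8_lc.D

set_option autoImplicit false

/-! The finite Heisenberg model. -/

namespace Pool.Agent.H.MP_8720f8_lc

open Function Module

variable {U : Type} [AddCommGroup U] [Module F U]

def hs (v : U) (φ : U →ₗ[F] F) (w : F) : Equiv.Perm (U × F) where
  toFun x := (x.1 + v, x.2 + φ x.1 + w)
  invFun x := (x.1 - v, x.2 - φ (x.1 - v) - w)
  left_inv x := by ext <;> simp; ring
  right_inv x := by ext <;> simp; ring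

def lin : (End F U)ˣ →* Equiv.Perm (U × F) where
  toFun c :=
    { toFun x := (c.1 x.1, x.2)
      invFun x := ((c⁻¹).1 x.1, x.2)
      left_inv x := by simp [← End.mul_apply]
      right_inv x := by simp [← End.mul_apply] }
  map_one' := rfl
  map_mul' _ _ := rfl

theorem hs_apply (v : U) (φ : U →ₗ[F] F) (w : F) (x : U × F) :
    hs v φ w x = (x.1 + v, x.2 + φ x.1 + w) := rfl
theorem lin_apply (c : (End F U)ˣ) (x : U × F) : lin c x = (c.1 x.1, x.2) := rfl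

theorem hs_one : hs (0 : U) 0 0 = 1 := by ext <;> simp [hs_apply]
theorem hs_mul (v v' : U) (φ φ' : U →ₗ[F] F) (w w' : F) :
    hs v φ w * hs v' φ' w' = hs (v + v') (φ + φ') (w + w' + φ v') := by
  ext <;> simp [hs_apply]
  · abel
  · ring
theorem hs_inv (v : U) (φ : U →ₗ[F] F) (w : F) : (hs v φ w)⁻¹ = hs (-v) (-φ) (φ v - w) := by
  rw [inv_eq_iff_mul_eq_one, hs_mul, ← hs_one]; simp
theorem hs_conj (c : (End F U)ˣ) (v : U) (φ : U →ₗ[F] F) (w : F) :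
    lin c * hs v φ w * (lin c)⁻¹ = hs (c.1 v) (φ ∘ₗ (c⁻¹).1) w := by
  rw [← map_inv]
  ext <;> simp [hs_apply, lin_apply, ← End.mul_apply, -map_inv]
theorem tr_pow (v : U) (n : ℕ) : hs v 0 0 ^ n = hs ((n : F) • v) 0 0 := by
  induction n with
  | zero => simp [hs_one]
  | succ n ih => rw [pow_succ, ih, hs_mul]; simp [add_smul]
theorem sh_pow (φ : U →ₗ[F] F) (n : ℕ) : hs 0 φ 0 ^ n = hs 0 ((n : F) • φ) 0 := by
  induction n with
  | zero => simp [hs_one]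
  | succ n ih => rw [pow_succ, ih, hs_mul]; simp [add_smul]

theorem cm_hs (v v' : U) (φ φ' : U →ₗ[F] F) :
    cm (hs v φ 0) (hs v' φ' 0) = hs 0 0 (φ' v - φ v') := by
  simp only [cm, hs_mul, hs_inv]
  congr 1 <;> simp
  ring
theorem cm_tr (c : (End F U)ˣ) (v : U) : cm (hs v 0 0) (lin c) = hs ((c.1 - 1) v) 0 0 := by
  rw [cm, hs_conj, hs_inv, hs_mul]; simp [neg_add_eq_sub]
theorem cm_sh (c : (End F U)ˣ) (φ : U →ₗ[F] F) :
    cm (hs 0 φ 0) (lin c) = hs 0 (φ ∘ₗ ((c⁻¹).1 - 1)) 0 := by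
  rw [cm, hs_conj, hs_inv, hs_mul]
  congr 1
  · simp
  · ext; simp [neg_add_eq_sub]
  · simp

def pp (c : End F U) : End F U := (c + (15 : F) • 1) * (c - 1)

theorem pp_comm (c : End F U) : pp c = (c - 1) * (c + (15 : F) • 1) := by
  simp only [pp, mul_add, add_mul, mul_sub, sub_mul, smul_mul_assoc, mul_smul_comm, one_mul,
    mul_one, smul_sub]
  abel

theorem p3_tr (c : (End F U)ˣ) (v : U) : p3 (lin c) (hs v 0 0) = hs (pp c.1 v) 0 0 := by
  rw [p3, cm_tr, hs_conj, tr_pow, hs_mul]; simp [pp]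
theorem p3_sh (c : (End F U)ˣ) (φ : U →ₗ[F] F) :
    p3 (lin c) (hs 0 φ 0) = hs 0 (φ ∘ₗ pp (c⁻¹).1) 0 := by
  rw [p3, cm_sh, hs_conj, sh_pow, hs_mul, pp_comm]
  congr 1
  · simp
  · ext; simp [mul_sub]; ring
  · simp

section
variable (a c : (End F U)ˣ) (h : pp (c⁻¹).1 = 0) (v : U) (φ : U →ₗ[F] F)

theorem al_tr : al (lin a) (lin c) (hs v 0 0) = hs ((pp c.1 * (a.1 - 1)) v) 0 0 := by
  rw [al, cm_tr, p3_tr]; rfl
theorem ar_sh : ar (lin a) (lin c) (hs 0 φ 0) = hs 0 (φ ∘ₗ (pp c.1 * (a.1 - 1))) 0 := by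
  rw [ar, ← map_inv, ← map_inv, p3_sh, cm_sh]; rfl
include h
theorem al_sh : al (lin a) (lin c) (hs 0 φ 0) = hs 0 0 0 := by
  rw [al, cm_sh, p3_sh, h]; simp
theorem ar_tr : ar (lin a) (lin c) (hs v 0 0) = hs 0 0 0 := by
  rw [ar, ← map_inv, ← map_inv, p3_tr, cm_tr, h]; simp
end

def Rep (y : Equiv.Perm (U × F)) (v : U) (φ : U →ₗ[F] F) : Prop :=
  y ^ 900 = hs v φ 0 ∧ (v = 0 ∨ φ = 0)

theorem rep_tr (v : U) : Rep (hs v 0 0) v 0 :=
  ⟨by rw [tr_pow, show ((900 : ℕ) : F) = 1 from rfl, one_smul], .inr rfl⟩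
theorem rep_sh (φ : U →ₗ[F] F) : Rep (hs 0 φ 0) 0 φ :=
  ⟨by rw [sh_pow, show ((900 : ℕ) : F) = 1 from rfl, one_smul], .inl rfl⟩

theorem ph_rep {y g : Equiv.Perm (U × F)} {v v' : U} {φ φ' : U →ₗ[F] F} (h : Rep y v φ)
    (h' : Rep g v' φ') : ph y g = hs 0 0 (φ' v - φ v') := by rw [ph, h.1, h'.1, cm_hs]

def Sl (g : ℕ → Equiv.Perm (U × F)) (d : ℕ → End F U) : Prop :=
  ∀ i y v φ, Rep y v φ → DD al g i y = hs (d i v) 0 0 ∧ DD ar g i y = hs 0 (φ ∘ₗ d i) 0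

theorem sl_mk {g : ℕ → Equiv.Perm (U × F)} {a b c : (End F U)ˣ} (ha : g 3 ^ 465 = lin a)
    (hb : g 4 ^ 310 = lin b) (hc : g 5 ^ 186 = lin c) (h : pp (c⁻¹).1 = 0) :
    Sl g fun i => (pp c.1 * (a.1 - 1)) * (pp c.1 * (b.1 - 1)) ^ (i + 1) * (pp c.1 * (a.1 - 1)) := by
  have h1 : ∀ n v, (al (lin b) (lin c))^[n] (hs v 0 0) = hs (((pp c.1 * (b.1 - 1)) ^ n) v) 0 0 := by
    intro n
    induction n with
    | zero => exact fun _ => rfl
    | succ n ih => intro v; rw [iterate_succ_apply, al_tr, ih, pow_succ]; rfl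
  have h2 : ∀ n φ, (ar (lin b) (lin c))^[n] (hs 0 φ 0) =
      hs 0 (φ ∘ₗ ((pp c.1 * (b.1 - 1)) ^ n)) 0 := by
    intro n
    induction n with
    | zero => exact fun _ => rfl
    | succ n ih => intro v; rw [iterate_succ_apply, ar_sh, ih, pow_succ']; rfl
  rintro i y v φ ⟨e, rfl | rfl⟩ <;> simp only [DD, ha, hb, hc, e]
  · refine ⟨?_, ?_⟩
    · rw [al_sh a c h, h1, al_tr]; simp
    · rw [ar_sh, h2, ar_sh]; rfl
  · refine ⟨?_, ?_⟩
    · rw [al_tr, h1, al_tr]; rfl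
    · rw [ar_tr a c h, h2, ar_sh]; simp

def un (e : End F U) (he : e * e = e) : Fˣ →* (End F U)ˣ := Units.map
  { toFun ζ := 1 + (ζ - 1) • e
    map_one' := by simp
    map_mul' x y := by
      simp only [mul_add, add_mul, smul_mul_assoc, mul_smul_comm, one_mul, mul_one, he]
      module }

theorem un_val (e : End F U) (he : e * e = e) (ζ : Fˣ) : (un e he ζ).1 = 1 + (ζ.1 - 1) • e := rfl

theorem pp_un (e : End F U) (he : e * e = e) (ζ : Fˣ) :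
    pp (un e he ζ).1 = ((ζ.1 + 15) * (ζ.1 - 1)) • e := by
  simp only [pp, un_val, add_sub_cancel_left, add_mul, smul_mul_assoc, mul_smul_comm, one_mul, he]
  module

def z1 : Fˣ := ⟨30, 30, rfl, rfl⟩
def z2 : Fˣ := ⟨5, 25, rfl, rfl⟩
def z3 : Fˣ := ⟨2, 16, rfl, rfl⟩

variable {Γ : Type} {ι : Γ → ℕ} {R : List Γ → List Γ → Prop} {k u : List Γ}

theorem Sl.dl {g : ℕ → Equiv.Perm (U × F)} {d : ℕ → End F U} (h : Sl g d) (l : List Γ)
    (hl : l ≠ []) {y : Equiv.Perm (U × F)} {v : U} {φ : U →ₗ[F] F} (hy : Rep y v φ) :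
    DL ι g l y = hs (act (fun γ => d (ι γ)) l v) 0 0 := by
  have : ∀ l v, DL ι g l (hs v 0 0) = hs (act (fun γ => d (ι γ)) l v) 0 0 := by
    intro l
    induction l with
    | nil => exact fun _ => rfl
    | cons γ l ih =>
      intro v
      rw [DL, List.foldl_cons, (h _ _ _ _ (rep_tr v)).1]
      exact ih _
  cases l with
  | nil => exact absurd rfl hl
  | cons γ l =>
    rw [DL, List.foldl_cons, (h _ _ _ _ hy).1]
    exact this _ _

theorem counter [Finite Γ] (h : Cls R k u) (hR : ∀ l r, R l r → l ≠ [] ∧ r ≠ []) (hk : k ≠ [])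
    (hu : u ≠ []) (hι : Injective ι) : ∃ (G : Type) (_ : Group G) (_ : Finite G) (S : Set G)
      (g : ℕ → G), Cl ι R k S ∧ (∀ j, g j ∈ S) ∧ Tg ι g u ∉ S := by
  obtain ⟨U, _, _, _, a, b, c, ha, hb, hc, hM⟩ := model3 h hR hk ι hι
  let S : Set (Equiv.Perm (U × F)) := {y | (∃ v, y = hs v 0 0) ∨ (∃ φ, y = hs 0 φ 0) ∨
    y = lin (un a ha z1) ∨ y = lin (un b hb z2) ∨ y = lin (un c hc z3)}
  have pw : ∀ (e : End F U) he ζ ζ' n, ζ ^ n = ζ' → lin (un e he ζ) ^ n = lin (un e he ζ') := by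
    rintro e he ζ _ n rfl; simp
  have p1 : ∀ (e : End F U) he ζ n, ζ ^ n = 1 → lin (un e he ζ) ^ n = 1 := fun e he ζ n h => by
    simpa using pw e he ζ 1 n h
  have p2 : ∀ n : ℕ, (n : F) = 0 → (∀ v : U, hs v 0 0 ^ n = 1) ∧
      ∀ φ : U →ₗ[F] F, hs 0 φ 0 ^ n = 1 := fun n h => by
    simp [tr_pow, sh_pow, h, hs_one]
  have s0 : ∀ y ∈ S, ∃ v φ, Rep y v φ := by
    rintro _ (⟨v, rfl⟩ | ⟨φ, rfl⟩ | rfl | rfl | rfl)
    · exact ⟨_, _, rep_tr v⟩
    · exact ⟨_, _, rep_sh φ⟩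
    all_goals exact ⟨0, 0, by rw [hs_one]; exact p1 _ _ _ _ (by decide +kernel), .inl rfl⟩
  have s1 : ∀ y ∈ S, y ^ 465 = 1 ∨ y ^ 465 = lin (un a ha z1) := by
    rintro _ (⟨v, rfl⟩ | ⟨φ, rfl⟩ | rfl | rfl | rfl)
    · exact .inl ((p2 465 rfl).1 _)
    · exact .inl ((p2 465 rfl).2 _)
    · exact .inr (pw _ _ _ _ _ (by decide +kernel))
    all_goals exact .inl (p1 _ _ _ _ (by decide +kernel))
  have s2 : ∀ y ∈ S, y ^ 310 = 1 ∨ y ^ 310 = lin (un b hb z2) := by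
    rintro _ (⟨v, rfl⟩ | ⟨φ, rfl⟩ | rfl | rfl | rfl)
    · exact .inl ((p2 310 rfl).1 _)
    · exact .inl ((p2 310 rfl).2 _)
    · exact .inl (p1 _ _ _ _ (by decide +kernel))
    · exact .inr (pw _ _ _ _ _ (by decide +kernel))
    · exact .inl (p1 _ _ _ _ (by decide +kernel))
  have s3 : ∀ y ∈ S, y ^ 186 = 1 ∨ y ^ 186 = lin (un c hc z3) := by
    rintro _ (⟨v, rfl⟩ | ⟨φ, rfl⟩ | rfl | rfl | rfl)
    · exact .inl ((p2 186 rfl).1 _)
    · exact .inl ((p2 186 rfl).2 _)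
    · exact .inl (p1 _ _ _ _ (by decide +kernel))
    · exact .inl (p1 _ _ _ _ (by decide +kernel))
    · exact .inr (pw _ _ _ _ _ (by decide +kernel))
  have k3 : pp ((un c hc z3)⁻¹).1 = 0 := by
    rw [← map_inv, pp_un, show ((z3⁻¹).1 + 15) * ((z3⁻¹).1 - 1) = 0 from rfl, zero_smul]
  have good : ∀ g : ℕ → Equiv.Perm (U × F), g 3 ^ 465 = lin (un a ha z1) →
      g 4 ^ 310 = lin (un b hb z2) → g 5 ^ 186 = lin (un c hc z3) → Sl g fun i =>
      ((-3 : F) • (c * a)) * ((6 : F) • (c * b)) ^ (i + 1) * ((-3 : F) • (c * a)) := by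
    intro g e1 e2 e3
    have := sl_mk e1 e2 e3 k3
    simp only [pp_un] at this
    simp only [un_val, add_sub_cancel_left, smul_mul_smul_comm] at this
    rwa [show (z3.1 + 15) * (z3.1 - 1) * (z1.1 - 1) = -3 from rfl,
      show (z3.1 + 15) * (z3.1 - 1) * (z2.1 - 1) = 6 from rfl] at this
  have key : ∀ g : ℕ → Equiv.Perm (U × F), (∀ j, g j ∈ S) → ∃ d, Sl g d ∧
      (∀ l r, R l r → act (fun γ => d (ι γ)) l = act (fun γ => d (ι γ)) r) ∧
      act (fun γ => d (ι γ)) k = 0 := by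
    intro g hg
    have z : ∀ l : List Γ, l ≠ [] → act (fun _ => (0 : End F U)) l = 0 := by
      rintro (_ | ⟨γ, l⟩) h
      · exact absurd rfl h
      · simp [act]
    have bad : Sl g (fun _ => 0) → ∃ d, Sl g d ∧
        (∀ l r, R l r → act (fun γ => d (ι γ)) l = act (fun γ => d (ι γ)) r) ∧
        act (fun γ => d (ι γ)) k = 0 := fun h =>
      ⟨_, h, fun l r e => (z l (hR l r e).1).trans (z r (hR l r e).2).symm, z k hk⟩
    have o : (1 : Equiv.Perm (U × F)) = lin 1 := rfl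
    have k1 : pp ((1 : (End F U)ˣ)⁻¹).1 = 0 := by simp [pp]
    rcases s1 _ (hg 3) with e1 | e1 <;> rcases s2 _ (hg 4) with e2 | e2 <;>
      rcases s3 _ (hg 5) with e3 | e3
    rotate_right
    · exact ⟨_, good g e1 e2 e3, hM.1, hM.2.1⟩
    all_goals
      (try rw [o] at e1); (try rw [o] at e2); (try rw [o] at e3)
      refine bad ?_
      first
        | simpa [pp] using sl_mk e1 e2 e3 k1
        | simpa using sl_mk e1 e2 e3 k3
  obtain ⟨x, φ, hx⟩ := hM.2.2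
  let g0 : ℕ → Equiv.Perm (U × F) := fun j =>
    match j with
    | 1 => hs x 0 0
    | 2 => hs 0 φ 0
    | 3 => lin (un a ha z1)
    | 4 => lin (un b hb z2)
    | 5 => lin (un c hc z3)
    | _ => hs 0 0 0
  refine ⟨_, inferInstance, inferInstance, S, g0, fun g hg o => ?_, fun j => ?_, ?_⟩
  · obtain ⟨d, h1, h2, h3⟩ := key g hg
    obtain ⟨v, φ, r1⟩ := s0 _ (hg 1)
    obtain ⟨v', φ', r2⟩ := s0 _ (hg 2)
    have e : ∀ γ, ph (DD al g (ι γ) (g 1)) (g 2) = ph (g 1) (DD ar g (ι γ) (g 2)) := fun γ => by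
      rw [(h1 _ _ _ _ r1).1, (h1 _ _ _ _ r2).2, ph_rep (rep_tr _) r2, ph_rep r1 (rep_sh _)]
      simp
    rcases o with ⟨γ, _ | _, _ | _⟩ | _ | ⟨⟨l, r⟩, p⟩ <;> simp only [Op]
    · exact .inl ⟨_, (h1 _ _ _ _ r1).1⟩
    · exact .inr (.inl ⟨_, (h1 _ _ _ _ r1).2⟩)
    · simpa [e] using hg 0
    · simpa [e] using hg 0
    · rw [h1.dl k hk r1, h3, ph_rep (rep_tr _) r2]
      simpa [hs_one] using hg 0
    · rw [h1.dl l (hR l r p).1 r1, h1.dl r (hR l r p).2 r1, h2 l r p]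
      simpa using hg 0
  · dsimp only [g0]
    split
    · exact .inl ⟨_, rfl⟩
    · exact .inr (.inl ⟨_, rfl⟩)
    · exact .inr (.inr (.inl rfl))
    · exact .inr (.inr (.inr (.inl rfl)))
    · exact .inr (.inr (.inr (.inr rfl)))
    · exact .inl ⟨_, rfl⟩
  · have h1 := good g0 (pw a ha z1 z1 465 (by decide +kernel))
      (pw b hb z2 z2 310 (by decide +kernel)) (pw c hc z3 z3 186 (by decide +kernel))
    rw [Tg, h1.dl u hu (y := g0 1) (rep_tr x), ph_rep (g := g0 2) (rep_tr _) (rep_sh φ),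
      show g0 0 = 1 from hs_one, one_mul]
    intro h
    apply hx
    rcases h with ⟨v, h⟩ | ⟨v, h⟩ | h | h | h <;>
      simpa [hs_apply, lin_apply] using congrArg (fun f : Equiv.Perm (U × F) => (f (0, 0)).2) h

end Pool.Agent.H.MP_8720f8_lc
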